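import Pool.Agent.Y560.TF.Stm
import Pool.Agent.Y993.TG.PSL

/-! Project TF, step PSL: if all classes over a point are small then the structure is thin. -/

set_option autoImplicit false

namespace Pool.Agent.H70TF

open Set MeasureTheory
open Pool.Agent.H899R2.VP (St Adj PIso BF IsoOn idOn inv comp zipSet)
open Pool.Agent.H533R2.VO (RS lift put OS Ic RIso Dich VC BlkV S_FINAL)
open Pool.Agent.H566P (ar R2 v2 a0 a1 lt ac co mk pull S_ACC S_MSG)
open Pool.Agent.Y560.TG (acc msg lt_mk ac_mk co_mk R2_ext piso_iff riso_iff riso_isoOn meas_lt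
  meas_ac meas_co meas_into cont_into piso_lt piso_ac piso_co piso_eq ex lt_ex ac_ex co_ex_even
  co_ex_odd piso_ex orb orb_ex Nm Off Sm Thin Few bf_trans0 bf_symm0 iso_trans0 iso_symm0
  iso_refl0 S_EXT S_GL S_MAT S_BP mat pick Se)
open Pool.Agent.Y993.TG (IsoR IsoS isoS_iff isoS_symm isoS_trans isoS_unique riso_iff'
  isoR_of_isoOn isoOn_of_isoR m_lt m_ac m_co m_adj m_lt2 m_co2 m_ac2 m_bf)
open Pool.Agent.Y560.TF

/-! ### Equivariance -/

section equi

variable {R R' : R2} {σ : Equiv.Perm ℕ}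

theorem le_perm (h : IsoR R R' σ) (x y : ℕ) : le R' (σ x) (σ y) ↔ le R x y :=
  or_congr σ.injective.eq_iff (h.1 x y)

theorem Q_perm (h : IsoR R R' σ) (y m v : ℕ) : Q R' (σ y) m (σ v) ↔ Q R y m v := by
  unfold Q
  split_ifs
  · symm
    refine σ.exists_congr fun z => ?_
    rw [h.2.1, le_perm h]
  · symm
    refine σ.exists_congr fun z => ?_
    rw [h.2.1, le_perm h]
  · symm
    refine σ.exists_congr fun z => σ.exists_congr fun r => ?_
    rw [h.2.1, le_perm h, le_perm h]
  · symm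
    refine σ.exists_congr fun z => σ.exists_congr fun z' => σ.exists_congr fun r => ?_
    rw [h.2.1, h.2.1, le_perm h, le_perm h, le_perm h]

theorem sl_perm (h : IsoR R R' σ) (y v w : ℕ) : sl R' (σ y) (σ v) (σ w) ↔ sl R y v w :=
  forall_congr' fun m => by rw [Q_perm h, Q_perm h]

theorem Du_perm (h : IsoR R R' σ) (u s : ℕ) : Du R' (σ u) (σ s) ↔ Du R u s := by
  unfold Du
  refine exists_congr fun n => ?_
  symm
  refine σ.exists_congr fun z => ?_
  rw [h.2.1, le_perm h]

theorem In_perm (h : IsoR R R' σ) (u s x : ℕ) : In R' (σ u) (σ s) (σ x) ↔ In R u s x := by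
  unfold In
  refine exists_congr fun n => exists_congr fun m => ?_
  symm
  refine σ.exists_congr fun z => σ.exists_congr fun w => ?_
  rw [h.2.1, h.2.1, le_perm h, le_perm h, sl_perm h]

theorem orb_perm (h : IsoR R R' σ) (u v : ℕ) : orb R' (σ u) (σ v) ↔ orb R u v := by
  unfold orb
  exact exists_congr fun n => h.2.1 _ _ _

theorem Ob_perm (h : IsoR R R' σ) (u v t : ℕ) : σ t ∈ Ob R' (σ u) (σ v) ↔ t ∈ Ob R u v := by
  rw [mem_Ob, mem_Ob]
  refine or_congr (orb_perm h _ _) (or_congr ?_ ?_)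
  · refine exists_congr fun n => ?_
    symm
    refine σ.exists_congr fun z => σ.exists_congr fun r => ?_
    rw [h.2.1, le_perm h, le_perm h, Du_perm h]
  · symm
    refine σ.exists_congr fun s => ?_
    rw [Du_perm h, In_perm h, In_perm h]

theorem lc_perm (h : IsoR R R' σ) (Λ : ℕ → ℕ → Prop) (y z i : ℕ) :
    lc Λ R' (σ y) (σ z) i ↔ lc Λ R y z i := by
  unfold lc
  refine exists_congr fun n => ?_
  symm
  refine σ.exists_congr fun w => ?_
  rw [h.2.1]
  simp only [Q_perm h]

theorem fl_perm (h : IsoR R R' σ) (Λ : ℕ → ℕ → Prop) (y z i : ℕ) :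
    fl Λ R' (σ y) (σ z) i ↔ fl Λ R y z i := by
  unfold fl
  simp only [lc_perm h]

theorem lp_perm (h : IsoR R R' σ) (y a b : ℕ) :
    Pool.Agent.Y560.TF.lp R' (σ y) (σ a) (σ b) ↔ Pool.Agent.Y560.TF.lp R y a b := by
  unfold Pool.Agent.Y560.TF.lp
  refine or_congr ?_ (and_congr (Du_perm h _ _) (and_congr (not_congr (Du_perm h _ _))
    (and_congr (le_perm h _ _) ?_)))
  · symm
    refine σ.exists_congr fun r => ?_
    rw [Du_perm h, le_perm h, le_perm h]
  · symm
    refine σ.forall_congr fun r => ?_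
    rw [Du_perm h, le_perm h, le_perm h]

theorem bel_perm (h : IsoR R R' σ) (Λ : ℕ → ℕ → Prop) (y a b : ℕ) :
    bel Λ R' (σ y) (σ a) (σ b) ↔ bel Λ R y a b := by
  unfold bel
  simp only [fl_perm h, Ob_perm h]
  refine or_congr Iff.rfl (and_congr Iff.rfl (and_congr Iff.rfl ?_))
  refine exists_congr fun n => exists_congr fun m => ?_
  symm
  refine σ.exists_congr fun x => σ.exists_congr fun x' => ?_
  rw [h.2.1, h.2.1, lp_perm h]
  simp only [Q_perm h]

theorem isoR_lb (h : IsoR R R' σ) (y : ℕ) : IsoR (lb R y) (lb R' (σ y)) σ := by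
  unfold lb
  refine ⟨fun a b => ?_, fun n a b => ?_, fun n a => ?_⟩
  · rw [lt_ex, lt_ex, h.1]
  · rw [ac_ex, ac_ex, h.2.1]
  · obtain ⟨k, rfl | rfl⟩ : ∃ k, n = 2 * k ∨ n = 2 * k + 1 := ⟨n / 2, by omega⟩
    · rw [co_ex_even, co_ex_even, h.2.2]
    · rw [co_ex_odd, co_ex_odd, Q_perm h]

theorem isoS_sha (h : IsoR R R' σ) (Λ : ℕ → ℕ → Prop) (y : ℕ) :
    IsoS (sha Λ R y) (sha Λ R' (σ y)) σ := by
  rw [isoS_iff]
  unfold sha
  refine ⟨fun a b => ?_, fun a b => ?_, fun n a b => ?_, fun n a => ?_⟩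
  · simp only [decide_eq_decide]
    exact bel_perm h Λ y a b
  · simp only
    rw [lt_mk, lt_mk, h.1, Ob_perm h]
  · simp only
    rw [ac_mk, ac_mk]
    split_ifs
    · exact Ob_perm h _ _ _
    · exact h.2.1 _ _ _
  · simp only
    rw [co_mk, co_mk, (isoR_lb h y).2.2]

theorem isoR_fla {M N : St ar} (h : IsoS M N σ) : IsoR (fla M) (fla N) σ := by
  rw [isoS_iff] at h
  obtain ⟨h1, h2, h3, h4⟩ := h
  unfold fla
  refine ⟨fun a b => ?_, fun n a b => ?_, fun n a => ?_⟩
  · rw [lt_mk, lt_mk]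
    simp only [h1, h2, h3, h4]
  · rw [ac_mk, ac_mk, h3]
  · rw [co_mk, co_mk, h4]

end equi

/-! ### Measurability -/

section meas

theorem m_le (x y : ℕ) : Measurable fun R : R2 => le R x y := by
  unfold le
  exact measurable_const.or (m_lt x y)

theorem m_lc (hM : S_MQ) (Λ : ℕ → ℕ → Prop) (y z i : ℕ) :
    Measurable fun R : R2 => lc Λ R y z i := by
  have hQ : ∀ y m z, Measurable fun R : R2 => Q R y m z := fun y m z =>
    measurableSet_setOfPred.1 (hM.1 y m z)
  unfold lc
  exact Measurable.exists fun n => Measurable.exists fun z' => (m_ac _ _ _).and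
    (Measurable.forall fun m => measurable_const.imp ((hQ _ _ _).iff measurable_const))

theorem m_fl (hM : S_MQ) (Λ : ℕ → ℕ → Prop) (y z i : ℕ) :
    Measurable fun R : R2 => fl Λ R y z i := by
  unfold fl
  exact (m_lc hM _ _ _ _).and (Measurable.forall fun j => Measurable.forall fun _ =>
    (m_lc hM _ _ _ _).not)

theorem m_lp (hM : S_MQ) (y a b : ℕ) :
    Measurable fun R : R2 => Pool.Agent.Y560.TF.lp R y a b := by
  have hD : ∀ u s, Measurable fun R : R2 => Du R u s := fun u s =>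
    measurableSet_setOfPred.1 (hM.2.1 u s)
  unfold Pool.Agent.Y560.TF.lp
  refine Measurable.or ?_ ?_
  · exact Measurable.exists fun r => (hD _ _).and ((m_le _ _).and (m_le _ _).not)
  · exact (hD _ _).and ((hD _ _).not.and ((m_le _ _).and (Measurable.forall fun r =>
      (hD _ _).imp ((m_le _ _).imp (m_le _ _)))))

theorem m_bel (hM : S_MQ) (Λ : ℕ → ℕ → Prop) (y a b : ℕ) :
    Measurable fun R : R2 => bel Λ R y a b := by
  have hQ : ∀ y m z, Measurable fun R : R2 => Q R y m z := fun y m z =>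
    measurableSet_setOfPred.1 (hM.1 y m z)
  have hO : ∀ u v t, Measurable fun R : R2 => t ∈ Ob R u v := fun u v t =>
    measurableSet_setOfPred.1 (hM.2.2 u v t)
  unfold bel
  refine Measurable.or ?_ ?_
  · exact Measurable.exists fun i => Measurable.exists fun j => (m_fl hM _ _ _ _).and
      ((m_fl hM _ _ _ _).and measurable_const)
  · refine Measurable.and ?_ (Measurable.and ?_ ?_)
    · exact Measurable.exists fun i => (m_fl hM _ _ _ _).and (m_fl hM _ _ _ _)
    · exact (hO _ _ _).not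
    · exact Measurable.exists fun n => Measurable.exists fun m => Measurable.exists fun x =>
        Measurable.exists fun x' => (m_ac _ _ _).and ((m_ac _ _ _).and
          ((Measurable.forall fun k => measurable_const.imp ((hQ _ _ _).iff (hQ _ _ _))).and
            (m_lp hM _ _ _)))

theorem m_lbco (hM : S_MQ) (y n a : ℕ) : Measurable fun R : R2 => co (lb R y) n a := by
  unfold lb
  obtain ⟨k, rfl | rfl⟩ : ∃ k, n = 2 * k ∨ n = 2 * k + 1 := ⟨n / 2, by omega⟩
  · simp only [co_ex_even]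
    exact m_co _ _
  · simp only [co_ex_odd]
    exact measurableSet_setOfPred.1 (hM.1 y k a)

theorem m_sha (hM : S_MQ) (Λ : ℕ → ℕ → Prop) (y : ℕ) : Measurable fun R : R2 => sha Λ R y := by
  have hO : ∀ u v t, Measurable fun R : R2 => t ∈ Ob R u v := fun u v t =>
    measurableSet_setOfPred.1 (hM.2.2 u v t)
  unfold sha
  refine Measurable.prodMk ?_ ?_
  · refine measurable_pi_iff.2 fun a => measurable_pi_iff.2 fun b => ?_
    refine measurable_to_bool ?_
    have := measurableSet_setOfPred.2 (m_bel hM Λ y a b)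
    refine this.congr ?_
    ext R
    simp only [mem_preimage, mem_singleton_iff, decide_eq_true_eq, Set.mem_ofPred_eq]
  · refine meas_into (fun a b => ?_) (fun n a b => ?_) (fun n a => ?_)
    · simp only [lt_mk]
      exact measurableSet_setOfPred.2 ((m_lt _ _).and (hO _ _ _))
    · simp only [ac_mk]
      split_ifs
      · exact hM.2.2 _ _ _
      · exact meas_ac _ _ _
    · simp only [co_mk]
      exact measurableSet_setOfPred.2 (m_lbco hM _ _ _)

theorem m_fla : Measurable (fla : St ar → R2) := by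
  refine meas_into (fun a b => ?_) (fun n a b => ?_) (fun n a => ?_)
  · simp only [fla, lt_mk]
    refine measurableSet_setOfPred.2 ((m_lt2 _ _).or ((m_ac2 _ _ _).not.and
      ((Measurable.exists fun k => m_co2 _ _).and (Measurable.or ?_ (Measurable.or ?_ ?_)))))
    · exact Measurable.exists fun k => (m_co2 _ _).and (m_co2 _ _)
    · exact Measurable.exists fun i => Measurable.exists fun j =>
        (m_co2 _ _).and ((m_co2 _ _).and (m_co2 _ _))
    · have h1 : Measurable fun M : St ar => M.1 b a = false := by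
        have h2 : Measurable (fun M : St ar => M.1 b a) :=
          (measurable_pi_apply a).comp ((measurable_pi_apply b).comp measurable_fst)
        exact measurableSet_setOfPred.1 (h2 (measurableSet_singleton false))
      exact (Measurable.forall fun m => measurable_const.imp
        ((m_co2 _ _).iff (m_co2 _ _))).and h1
  · simp only [fla, ac_mk]
    exact measurableSet_setOfPred.2 (m_ac2 _ _ _)
  · simp only [fla, co_mk]
    exact measurableSet_setOfPred.2 (m_co2 _ _)

theorem m_fix (hM : S_MQ) (Λ : ℕ → ℕ → Prop) (y : ℕ) :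
    MeasurableSet {M : St ar | sha Λ (fla M) y = M} := by
  have hm : Measurable (fun M : St ar => sha Λ (fla M) y) := (m_sha hM Λ y).comp m_fla
  have e : {M : St ar | sha Λ (fla M) y = M} =
      (⋂ a : ℕ, ⋂ b : ℕ, {M : St ar | (sha Λ (fla M) y).1 a b = M.1 a b}) ∩
        ⋂ i : ℕ, ⋂ v : Fin (ar i) → ℕ, {M : St ar | (sha Λ (fla M) y).2 i v = M.2 i v} := by
    ext M
    simp only [mem_inter_iff, mem_iInter, Set.mem_ofPred_eq]
    constructor
    · intro h
      exact ⟨fun x y => by rw [h], fun i v => by rw [h]⟩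
    · rintro ⟨h1, h2⟩
      exact Prod.ext (funext fun x => funext fun y => h1 x y) (funext fun i => funext fun v =>
        h2 i v)
  rw [e]
  refine MeasurableSet.inter ?_ ?_
  · refine MeasurableSet.iInter fun a => MeasurableSet.iInter fun b => ?_
    have h1 : Measurable (fun M : St ar => M.1 a b) :=
      (measurable_pi_apply b).comp ((measurable_pi_apply a).comp measurable_fst)
    exact measurableSet_eq_fun (h1.comp hm) h1
  · refine MeasurableSet.iInter fun i => MeasurableSet.iInter fun v => ?_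
    have h1 : Measurable (fun M : St ar => M.2 i v) :=
      (measurable_pi_apply v).comp ((measurable_pi_apply i).comp measurable_snd)
    exact measurableSet_eq_fun (h1.comp hm) h1

end meas

/-! ### Structures in which all elements are named -/

theorem iso_named {M N : R2} {O Y : Set ℕ} {o : Ordinal.{0}} (ho : 1 < o)
    (hk : ∀ w ∈ O, ∃ k l, co M k w ∧ co M l w ∧ ∀ w' ∈ O, co M k w' → co M l w' → w' = w)
    (h : BF (lift M) (lift N) O Y o ∅) : IsoOn (lift M) (lift N) O Y ∅ := by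
  have key : ∀ w ∈ O, ∀ w' ∈ Y, (∀ k, co M k w ↔ co N k w') → ∀ x ∈ O, ∀ x' ∈ Y,
      (∀ k, co M k x ↔ co N k x') → PIso (lift M) (lift N) {(x, x'), (w, w')} := by
    intro w hw w' hw' hc x hx x' hx' hd
    obtain ⟨w1, hw1, hb1⟩ := h.back ho hw'
    obtain ⟨x1, hx1, hb2⟩ := hb1.back one_pos hx'
    have hp := hb2.piso
    have e1 : w1 = w := by
      obtain ⟨k, l, hk1, hl1, hk2⟩ := hk w hw
      refine hk2 w1 hw1 ?_ ?_
      · rw [piso_co hp (x := w1) (x' := w') (by simp), ← hc]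
        exact hk1
      · rw [piso_co hp (x := w1) (x' := w') (by simp), ← hc]
        exact hl1
    have e2 : x1 = x := by
      obtain ⟨k, l, hk1, hl1, hk2⟩ := hk x hx
      refine hk2 x1 hx1 ?_ ?_
      · rw [piso_co hp (x := x1) (x' := x') (by simp), ← hd]
        exact hk1
      · rw [piso_co hp (x := x1) (x' := x') (by simp), ← hd]
        exact hl1
    rw [e1, e2] at hp
    refine hp.mono ?_
    intro u hu
    simpa using hu
  refine ⟨{u | u.1 ∈ O ∧ u.2 ∈ Y ∧ ∀ k, co M k u.1 ↔ co N k u.2}, empty_subset _, ?_, ?_, ?_, ?_⟩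
  · intro u hu
    exact ⟨hu.1, hu.2.1⟩
  · rw [piso_iff]
    refine ⟨?_, ?_, ?_, ?_⟩
    · rintro ⟨x, x'⟩ ⟨h1, h2, h3⟩ ⟨w, w'⟩ ⟨h4, h5, h6⟩
      exact piso_eq (key w h4 w' h5 h6 x h1 x' h2 h3) (by simp) (by simp)
    · rintro ⟨x, x'⟩ ⟨h1, h2, h3⟩ ⟨w, w'⟩ ⟨h4, h5, h6⟩
      exact piso_lt (key w h4 w' h5 h6 x h1 x' h2 h3) (by simp) (by simp)
    · rintro n ⟨x, x'⟩ ⟨h1, h2, h3⟩ ⟨w, w'⟩ ⟨h4, h5, h6⟩
      exact piso_ac (key w h4 w' h5 h6 x h1 x' h2 h3) (by simp) (by simp)
    · rintro n ⟨x, x'⟩ ⟨h1, h2, h3⟩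
      exact h3 n
  · intro x hx
    obtain ⟨y, hy, hb⟩ := h.forth ho hx
    exact ⟨y, hx, hy, fun k => piso_co hb.piso (by simp)⟩
  · intro y hy
    obtain ⟨x, hx, hb⟩ := h.back ho hy
    exact ⟨x, hx, hy, fun k => piso_co hb.piso (by simp)⟩

/-! ### Pieces -/

/-- the structure with the relation of being in the same piece (one piece) in front -/
noncomputable def rc (N : R2) : R2 :=
  mk (lt N) (fun n a b => if n = 0 then True else ac N (n - 1) a b) (co N)

theorem iso_rc {N Z T : R2} {X O : Set ℕ} {e : ℕ → ℕ} (he : Function.Injective e)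
    (hO : ∀ z ∈ O, ∃ a, e a = z) (hi : IsoOn (lift N) (lift Z) X O ∅)
    (hlt : ∀ a b, e a ∈ O → e b ∈ O → (lt T a b ↔ lt Z (e a) (e b)))
    (h0 : ∀ a b, e a ∈ O → e b ∈ O → ac T 0 a b)
    (hac : ∀ n a b, e a ∈ O → e b ∈ O → (ac T (n + 1) a b ↔ ac Z n (e a) (e b)))
    (hco : ∀ n a, e a ∈ O → (co T n a ↔ co Z n (e a))) :
    IsoOn (lift (rc N)) (lift T) X {b | e b ∈ O} ∅ := by
  obtain ⟨q, -, h2, h3, h4, h5⟩ := hi
  refine ⟨{w | (w.1, e w.2) ∈ q}, empty_subset _, ?_, ?_, ?_, ?_⟩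
  · rintro ⟨u, v⟩ huv
    exact ⟨(h2 huv).1, (h2 huv).2⟩
  · rw [piso_iff]
    refine ⟨?_, ?_, ?_, ?_⟩
    · rintro ⟨x, x'⟩ hx ⟨w, w'⟩ hw
      exact (piso_eq h3 hx hw).trans he.eq_iff
    · rintro ⟨x, x'⟩ hx ⟨w, w'⟩ hw
      simp only
      unfold rc
      rw [lt_mk, hlt x' w' (h2 hx).2 (h2 hw).2]
      exact piso_lt h3 hx hw
    · rintro n ⟨x, x'⟩ hx ⟨w, w'⟩ hw
      simp only
      unfold rc
      rw [ac_mk]
      rcases n with _ | n
      · rw [if_pos rfl]
        exact iff_of_true trivial (h0 x' w' (h2 hx).2 (h2 hw).2)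
      · rw [if_neg (by omega), hac n x' w' (h2 hx).2 (h2 hw).2, Nat.add_sub_cancel]
        exact piso_ac h3 hx hw
    · rintro n ⟨x, x'⟩ hx
      simp only
      unfold rc
      rw [co_mk, hco n x' (h2 hx).2]
      exact piso_co h3 hx
  · intro x hx
    obtain ⟨z, hz⟩ := h4 x hx
    obtain ⟨a, rfl⟩ := hO z (h2 hz).2
    exact ⟨a, hz⟩
  · intro b hb
    exact h5 (e b) hb

theorem t_PSL (hG : S_GEO) (hT : S_TRQ) (hB : S_TBF) (hL : S_LABQ) (hP : S_BP) (hS : S_SHA)
    (hV : S_VM) (hM : S_MQ) : S_PSL := by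
  intro Γ _ g hg R y β γ hTR hβ hβγ hγ hFew hSm
  have hωγ : Ordinal.omega0 ≤ γ := (hβ.trans (le_self_add)).trans hβγ
  have h1β : (1 : Ordinal.{0}) < β := Ordinal.one_lt_omega0.trans_le hβ
  have hβ1γ : β + 1 < γ := by
    refine lt_of_lt_of_le ?_ hβγ
    have : (1 : Ordinal.{0}) < 2 := by norm_num
    gcongr
  have hβ1 : β + 1 < Ordinal.omega 1 := hβ1γ.trans hγ
  obtain ⟨Λ, hΛ⟩ := hL R γ hωγ hγ hFew
  set K : Set R2 := {Y | BF (lift R) (lift Y) univ univ γ ∅} with hK
  have hKm : MeasurableSet K := m_bf measurable_id R hγ ∅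
  have hKTR : ∀ Y ∈ K, TR g Y := fun Y hY => hB Γ g hg R Y hTR (BF.mono hY hωγ)
  have hsha : ∀ Y ∈ K, ∀ y', OS (sha Λ Y y') ∧ fla (sha Λ Y y') = Y := fun Y hY y' =>
    hS Γ g hg Λ Y y' (hKTR Y hY) (hΛ Y hY y')
  have hGR : GEO R := hG Γ g hg R hTR
  -- all classes are small
  have hSm' : ∀ z, Sm β (lb R y) (Ob R y z) := by
    intro z
    by_cases hz : orb R y z
    · refine ⟨fun _ => (lb R y, Ob R y z), fun N Y h => ⟨0, ?_⟩⟩
      refine iso_named h1β ?_ h
      have hO : Ob R y z = {w | orb R y w} := (hGR.out y z).2 z hz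
      rw [hO]
      intro w hw
      obtain ⟨t, ht⟩ := hTR
      obtain ⟨k, hk⟩ := hw
      have hkk := (ht.act _ _ _).1 hk
      refine ⟨2 * (4 * k) + 1, 2 * (4 * k + 1) + 1, ?_, ?_, ?_⟩
      · unfold lb
        rw [co_ex_odd, Q0_iff ht, hkk]
        exact Or.inl rfl
      · unfold lb
        rw [co_ex_odd, Q1_iff ht, hkk]
        exact Or.inl rfl
      · intro w' _ hw' hw''
        unfold lb at hw' hw''
        rw [co_ex_odd, Q0_iff ht, hkk] at hw'
        rw [co_ex_odd, Q1_iff ht, hkk] at hw''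
        rcases hw' with h1 | h1
        · exact h1.symm
        · rcases hw'' with h2 | h2
          · exact h2
          · exact absurd (ht.tr _ _ _ h1 h2) (ht.irr _)
    · exact hSm z hz
  choose f hf using hSm'
  let F : ℕ → R2 × Set ℕ := fun m => (rc (f m.unpair.1 m.unpair.2).1, (f m.unpair.1 m.unpair.2).2)
  have hVC : VC (VM F) := hV F
  let B' : Set (St ar) := {M | ∃ y', BF (lift R) (lift (fla M)) univ univ (β + 1) {(y, y')} ∧
    fla M ∈ K ∧ sha Λ (fla M) y' = M}
  have hB'm : MeasurableSet B' := by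
    refine measurableSet_setOfPred.2 (Measurable.exists fun y' => Measurable.and ?_
      (Measurable.and ?_ ?_))
    · exact measurableSet_setOfPred.1 (m_bf m_fla R hβ1 _)
    · exact measurableSet_setOfPred.1 (m_fla hKm)
    · exact measurableSet_setOfPred.1 (m_fix hM Λ y')
  have hinv : ∀ M N : St ar, ∀ σ : Equiv.Perm ℕ, IsoS M N σ → M ∈ B' → N ∈ B' := by
    rintro M N σ h ⟨y', h1, h2, h3⟩
    have hf' := isoR_fla h
    have hi := isoOn_of_isoR hf'
    refine ⟨σ y', ?_, ?_, ?_⟩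
    · refine (h1.comp (hi.bf _)).subset ?_
      rintro u hu
      rw [mem_singleton_iff] at hu
      subst hu
      exact ⟨y', rfl, rfl⟩
    · exact bf_trans0 h2 ((hi.mono (empty_subset _)).bf _)
    · have h4 := isoS_sha hf' Λ y'
      rw [h3] at h4
      exact isoS_unique h4 h
  have hB'V : ∀ M ∈ B', OS M ∧ BlkV (VM F) M := by
    rintro M ⟨y', h1, h2, h3⟩
    obtain ⟨h4, -⟩ := hsha _ h2 y'
    rw [h3] at h4
    refine ⟨h4, ?_⟩
    intro x e he hex
    have hGM : GEO (fla M) := hG Γ g hg (fla M) (hKTR _ h2)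
    have hM2 : M.2 = mk (fun a b => lt (fla M) a b ∧ b ∈ Ob (fla M) y' a)
        (fun n a b => if n = 0 then b ∈ Ob (fla M) y' a else ac (fla M) (n - 1) a b)
        (co (lb (fla M) y')) := by
      conv_lhs => rw [← h3]
      rfl
    have hac0 : ∀ a b, ac M.2 0 a b ↔ b ∈ Ob (fla M) y' a := fun a b => by
      rw [hM2, ac_mk, if_pos rfl]
    have hacS : ∀ n a b, ac M.2 (n + 1) a b ↔ ac (fla M) n a b := fun n a b => by
      rw [hM2, ac_mk, if_neg (by omega), Nat.add_sub_cancel]
    have hltM : ∀ a b, lt M.2 a b ↔ lt (fla M) a b ∧ b ∈ Ob (fla M) y' a := fun a b => by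
      rw [hM2, lt_mk]
    have hcoM : ∀ n a, co M.2 n a ↔ co (lb (fla M) y') n a := fun n a => by
      rw [hM2, co_mk]
    have hpull : (fun (i : ℕ) (v : Fin (ar i) → ℕ) => M.2 i (e ∘ v)) = pull M.2 e := rfl
    rw [hpull]
    have Tac : ∀ n a b, ac (pull M.2 e) n a b ↔ ac M.2 n (e a) (e b) := fun n a b =>
      Pool.Agent.H566P.REP2_ac_pull _ _ _ _ _
    have Tlt : ∀ a b, lt (pull M.2 e) a b ↔ lt M.2 (e a) (e b) := fun a b =>
      Pool.Agent.H566P.REP2_lt_pull _ _ _ _
    have Tco : ∀ n a, co (pull M.2 e) n a ↔ co M.2 n (e a) := fun n a =>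
      Pool.Agent.H566P.REP2_co_pull _ _ _ _
    refine ⟨?_, ?_, ?_, ?_, ?_, ?_⟩
    · intro a
      rw [Tac, hac0]
      exact hGM.self _ _
    · intro a b h
      rw [Tac, hac0] at h ⊢
      rw [hGM.eqv _ _ _ h]
      exact hGM.self _ _
    · intro a b c h h'
      rw [Tac, hac0] at h h' ⊢
      rwa [hGM.eqv _ _ _ h] at h'
    · intro a b h
      rw [Tlt, hltM] at h
      rw [Tac, hac0]
      exact h.2
    · intro n a b h
      rw [Tac] at h
      rw [Tac, hac0]
      rcases n with _ | n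
      · exact (hac0 _ _).1 h
      · rw [hacS] at h
        exact (hGM.inv n y' (e a) (e a) (e b) h).1 (hGM.self _ _)
    · intro a
      obtain ⟨z, -, hz⟩ := h1.back (lt_add_one β) (mem_univ (e a))
      have h6 := hT.2.2.1 R (fla M) _ y y' z (e a) β hβ hz (by simp) (by simp)
      have h7 : BF (lift (lb R y)) (lift (lb (fla M) y')) (Ob R y z) (Ob (fla M) y' (e a)) β ∅ :=
        h6.subset (empty_subset _)
      obtain ⟨n, hn⟩ := hf z _ _ h7
      refine ⟨Nat.pair z n, ?_⟩
      have e1 : F (Nat.pair z n) = (rc (f z n).1, (f z n).2) := by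
        show (_, _) = _
        rw [Nat.unpair_pair]
      rw [e1]
      have hset : {b | ac (pull M.2 e) 0 a b} = {b | e b ∈ Ob (fla M) y' (e a)} := by
        ext b
        exact (Tac _ _ _).trans (hac0 _ _)
      rw [hset]
      refine iso_rc he ?_ hn ?_ ?_ ?_ ?_
      · intro w hw
        refine (hex w).1 ?_
        have hw0 : ac M.2 0 (e a) w := (hac0 _ _).2 hw
        have hea : e a ∈ Ic M x x := (hex (e a)).2 ⟨a, rfl⟩
        have hloc : ¬ Adj M (e a) w ∧ ¬ Adj M w (e a) := by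
          have har : ar (2 * 0 + 1) = 2 := by
            unfold ar
            exact if_pos (Or.inr (by norm_num))
          have hl := h4.loc (2 * 0 + 1) (v2 (2 * 0 + 1) (e a) w) hw0
          have i0 : v2 (2 * 0 + 1) (e a) w ⟨0, by omega⟩ = e a := by
            unfold v2
            exact if_pos rfl
          have i1 : v2 (2 * 0 + 1) (e a) w ⟨1, by omega⟩ = w := by
            unfold v2
            exact if_neg (by norm_num)
          have l1 := hl ⟨0, by omega⟩ ⟨1, by omega⟩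
          have l2 := hl ⟨1, by omega⟩ ⟨0, by omega⟩
          rw [i0, i1] at l1
          rw [i0, i1] at l2
          exact ⟨l1, l2⟩
        refine ⟨fun hwx => ?_, fun hxw => ?_⟩
        · rcases h4.ntr _ (e a) _ hwx with h | h
          · exact hloc.2 h
          · exact hea.1 h
        · rcases h4.ntr _ (e a) _ hxw with h | h
          · exact hea.2 h
          · exact hloc.1 h
      · intro b c hb hc
        rw [Tlt, hltM]
        unfold lb
        rw [lt_ex]
        refine and_iff_left ?_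
        rwa [hGM.eqv _ _ _ hb]
      · intro b c hb hc
        rw [Tac, hac0]
        rwa [hGM.eqv _ _ _ hb]
      · intro n b c hb hc
        rw [Tac, hacS]
        unfold lb
        rw [ac_ex]
      · intro n b hb
        rw [Tco, hcoM]
  rcases Pool.Agent.H533R2.VO.final ar (VM F) hVC B' hB'm
    (fun M N σ h1 h2 => ⟨hinv M N σ ⟨h1, h2⟩, hinv N M σ.symm (isoS_symm ⟨h1, h2⟩)⟩) hB'V with
    ⟨c, hc⟩ | ⟨c, hc1, hc2, hc3⟩
  · refine ⟨fun n => fla (c n), fun W hW => ?_⟩
    obtain ⟨y', -, hy'⟩ := BF.forth hW hβ1γ (mem_univ y)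
    obtain ⟨-, h4⟩ := hsha W hW y'
    have hm : sha Λ W y' ∈ B' := by
      refine ⟨y', ?_, ?_, ?_⟩
      · rw [h4]
        refine hy'.subset ?_
        simp
      · rw [h4]; exact hW
      · rw [h4]
    obtain ⟨n, σ, h5, h6⟩ := hc _ hm
    refine ⟨n, riso_iff'.2 ⟨σ, ?_⟩⟩
    have h7 : IsoR (fla (c n)) (fla (sha Λ W y')) σ := isoR_fla ⟨h5, h6⟩
    rwa [h4] at h7
  · exfalso
    choose b hb1 hb2 hb3 using hc2
    obtain ⟨k1, hk1⟩ := hg 1
    have hbb : ∀ A n, b A = n ↔
        co (c A).2 (2 * (4 * k1) + 1) n ∧ co (c A).2 (2 * (4 * k1 + 1) + 1) n := by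
      intro A n
      obtain ⟨t, ht⟩ := hKTR _ (hb2 A)
      conv_rhs => rw [← hb3 A]
      unfold sha lb
      simp only
      rw [co_mk, co_mk, co_ex_odd, co_ex_odd, Q0_iff ht, Q1_iff ht, hk1, ht.one]
      constructor
      · rintro rfl
        exact ⟨Or.inl rfl, Or.inl rfl⟩
      · rintro ⟨h1 | h1, h2⟩
        · exact h1
        · rcases h2 with h2 | h2
          · exact h2.symm
          · exact absurd (ht.tr _ _ _ h1 h2) (ht.irr _)
    have hbm : Measurable b := by
      refine measurable_to_countable' fun n => ?_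
      have e : b ⁻¹' {n} = {A | co (c A).2 (2 * (4 * k1) + 1) n ∧
          co (c A).2 (2 * (4 * k1 + 1) + 1) n} := by
        ext A
        exact hbb A n
      rw [e]
      exact measurableSet_setOfPred.2 (((m_co2 _ _).comp hc1.measurable).and
        ((m_co2 _ _).comp hc1.measurable))
    have hnc : ¬ Countable (ℕ → Bool) := by
      intro h
      obtain ⟨f, hf⟩ := exists_surjective_nat (ℕ → Bool)
      obtain ⟨n, hn⟩ := hf (fun n => ! f n n)
      have := congrFun hn n
      simp at this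
    refine hP K hKm ?_ (ℕ → Bool) hnc (fun A => fla (c A)) b (m_fla.comp hc1.measurable) hbm hb2 ?_
    · rintro ⟨d, hd1, hd2, hd3⟩
      exact hFew ⟨d, hd1, hd2, hd3⟩
    · intro A A' h
      obtain ⟨σ, hσ, hσ2⟩ := isoR_of_isoOn h
      have h2 := isoS_sha hσ Λ (b A)
      rw [hσ2 (b A, b A') rfl] at h2
      simp only at h2
      rw [hb3 A, hb3 A'] at h2
      exact hc3 A A' ⟨σ, h2.1, h2.2⟩

end Pool.Agent.H70TF
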